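import Pool.Agent.H893Z.SatDefs

/-! Kernel runs of the search, values of the prime 3 congruent to 1 mod 8. -/

set_option autoImplicit false
set_option maxRecDepth 100000

namespace Pool.Agent.H893Z.Sat

theorem chk_1 : chk 1 = true := by decide +kernel
theorem chk_9 : chk 9 = true := by decide +kernel
theorem chk_17 : chk 17 = true := by decide +kernel
theorem chk_25 : chk 25 = true := by decide +kernel
theorem chk_33 : chk 33 = true := by decide +kernel
theorem chk_41 : chk 41 = true := by decide +kernel
theorem chk_49 : chk 49 = true := by decide +kernel
theorem chk_57 : chk 57 = true := by decide +kernel
theorem chk_65 : chk 65 = true := by decide +kernel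
theorem chk_73 : chk 73 = true := by decide +kernel
theorem chk_81 : chk 81 = true := by decide +kernel
theorem chk_89 : chk 89 = true := by decide +kernel
theorem chk_97 : chk 97 = true := by decide +kernel
theorem chk_105 : chk 105 = true := by decide +kernel
theorem chk_113 : chk 113 = true := by decide +kernel
theorem chk_121 : chk 121 = true := by decide +kernel
theorem chk_129 : chk 129 = true := by decide +kernel
theorem chk_137 : chk 137 = true := by decide +kernel
theorem chk_145 : chk 145 = true := by decide +kernel
theorem chk_153 : chk 153 = true := by decide +kernel
theorem chk_161 : chk 161 = true := by decide +kernel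
theorem chk_169 : chk 169 = true := by decide +kernel
theorem chk_177 : chk 177 = true := by decide +kernel
theorem chk_185 : chk 185 = true := by decide +kernel
theorem chk_193 : chk 193 = true := by decide +kernel
theorem chk_201 : chk 201 = true := by decide +kernel
theorem chk_209 : chk 209 = true := by decide +kernel

end Pool.Agent.H893Z.Sat
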