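import Pool.Agent.H893Z.SatDefs

/-! Kernel runs of the search, values of the prime 3 congruent to 2 mod 8. -/

set_option autoImplicit false
set_option maxRecDepth 100000

namespace Pool.Agent.H893Z.Sat

theorem chk_2 : chk 2 = true := by decide +kernel
theorem chk_10 : chk 10 = true := by decide +kernel
theorem chk_18 : chk 18 = true := by decide +kernel
theorem chk_26 : chk 26 = true := by decide +kernel
theorem chk_34 : chk 34 = true := by decide +kernel
theorem chk_42 : chk 42 = true := by decide +kernel
theorem chk_50 : chk 50 = true := by decide +kernel
theorem chk_58 : chk 58 = true := by decide +kernel
theorem chk_66 : chk 66 = true := by decide +kernel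
theorem chk_74 : chk 74 = true := by decide +kernel
theorem chk_82 : chk 82 = true := by decide +kernel
theorem chk_90 : chk 90 = true := by decide +kernel
theorem chk_98 : chk 98 = true := by decide +kernel
theorem chk_106 : chk 106 = true := by decide +kernel
theorem chk_114 : chk 114 = true := by decide +kernel
theorem chk_122 : chk 122 = true := by decide +kernel
theorem chk_130 : chk 130 = true := by decide +kernel
theorem chk_138 : chk 138 = true := by decide +kernel
theorem chk_146 : chk 146 = true := by decide +kernel
theorem chk_154 : chk 154 = true := by decide +kernel
theorem chk_162 : chk 162 = true := by decide +kernel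
theorem chk_170 : chk 170 = true := by decide +kernel
theorem chk_178 : chk 178 = true := by decide +kernel
theorem chk_186 : chk 186 = true := by decide +kernel
theorem chk_194 : chk 194 = true := by decide +kernel
theorem chk_202 : chk 202 = true := by decide +kernel
theorem chk_210 : chk 210 = true := by decide +kernel

end Pool.Agent.H893Z.Sat
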