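import Pool.Agent.H893Z.SatDefs

/-! Kernel runs of the search, values of the prime 3 congruent to 3 mod 8. -/

set_option autoImplicit false
set_option maxRecDepth 100000

namespace Pool.Agent.H893Z.Sat

theorem chk_3 : chk 3 = true := by decide +kernel
theorem chk_11 : chk 11 = true := by decide +kernel
theorem chk_19 : chk 19 = true := by decide +kernel
theorem chk_27 : chk 27 = true := by decide +kernel
theorem chk_35 : chk 35 = true := by decide +kernel
theorem chk_43 : chk 43 = true := by decide +kernel
theorem chk_51 : chk 51 = true := by decide +kernel
theorem chk_59 : chk 59 = true := by decide +kernel
theorem chk_67 : chk 67 = true := by decide +kernel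
theorem chk_75 : chk 75 = true := by decide +kernel
theorem chk_83 : chk 83 = true := by decide +kernel
theorem chk_91 : chk 91 = true := by decide +kernel
theorem chk_99 : chk 99 = true := by decide +kernel
theorem chk_107 : chk 107 = true := by decide +kernel
theorem chk_115 : chk 115 = true := by decide +kernel
theorem chk_123 : chk 123 = true := by decide +kernel
theorem chk_131 : chk 131 = true := by decide +kernel
theorem chk_139 : chk 139 = true := by decide +kernel
theorem chk_147 : chk 147 = true := by decide +kernel
theorem chk_155 : chk 155 = true := by decide +kernel
theorem chk_163 : chk 163 = true := by decide +kernel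
theorem chk_171 : chk 171 = true := by decide +kernel
theorem chk_179 : chk 179 = true := by decide +kernel
theorem chk_187 : chk 187 = true := by decide +kernel
theorem chk_195 : chk 195 = true := by decide +kernel
theorem chk_203 : chk 203 = true := by decide +kernel

end Pool.Agent.H893Z.Sat
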