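import Pool.Agent.H893Z.SatDefs

/-! Kernel runs of the search, values of the prime 3 congruent to 4 mod 8. -/

set_option autoImplicit false
set_option maxRecDepth 100000

namespace Pool.Agent.H893Z.Sat

theorem chk_4 : chk 4 = true := by decide +kernel
theorem chk_12 : chk 12 = true := by decide +kernel
theorem chk_20 : chk 20 = true := by decide +kernel
theorem chk_28 : chk 28 = true := by decide +kernel
theorem chk_36 : chk 36 = true := by decide +kernel
theorem chk_44 : chk 44 = true := by decide +kernel
theorem chk_52 : chk 52 = true := by decide +kernel
theorem chk_60 : chk 60 = true := by decide +kernel
theorem chk_68 : chk 68 = true := by decide +kernel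
theorem chk_76 : chk 76 = true := by decide +kernel
theorem chk_84 : chk 84 = true := by decide +kernel
theorem chk_92 : chk 92 = true := by decide +kernel
theorem chk_100 : chk 100 = true := by decide +kernel
theorem chk_108 : chk 108 = true := by decide +kernel
theorem chk_116 : chk 116 = true := by decide +kernel
theorem chk_124 : chk 124 = true := by decide +kernel
theorem chk_132 : chk 132 = true := by decide +kernel
theorem chk_140 : chk 140 = true := by decide +kernel
theorem chk_148 : chk 148 = true := by decide +kernel
theorem chk_156 : chk 156 = true := by decide +kernel
theorem chk_164 : chk 164 = true := by decide +kernel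
theorem chk_172 : chk 172 = true := by decide +kernel
theorem chk_180 : chk 180 = true := by decide +kernel
theorem chk_188 : chk 188 = true := by decide +kernel
theorem chk_196 : chk 196 = true := by decide +kernel
theorem chk_204 : chk 204 = true := by decide +kernel

end Pool.Agent.H893Z.Sat
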