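import Pool.Agent.H893Z.SatDefs

/-! Kernel runs of the search, values of the prime 3 congruent to 5 mod 8. -/

set_option autoImplicit false
set_option maxRecDepth 100000

namespace Pool.Agent.H893Z.Sat

theorem chk_5 : chk 5 = true := by decide +kernel
theorem chk_13 : chk 13 = true := by decide +kernel
theorem chk_21 : chk 21 = true := by decide +kernel
theorem chk_29 : chk 29 = true := by decide +kernel
theorem chk_37 : chk 37 = true := by decide +kernel
theorem chk_45 : chk 45 = true := by decide +kernel
theorem chk_53 : chk 53 = true := by decide +kernel
theorem chk_61 : chk 61 = true := by decide +kernel
theorem chk_69 : chk 69 = true := by decide +kernel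
theorem chk_77 : chk 77 = true := by decide +kernel
theorem chk_85 : chk 85 = true := by decide +kernel
theorem chk_93 : chk 93 = true := by decide +kernel
theorem chk_101 : chk 101 = true := by decide +kernel
theorem chk_109 : chk 109 = true := by decide +kernel
theorem chk_117 : chk 117 = true := by decide +kernel
theorem chk_125 : chk 125 = true := by decide +kernel
theorem chk_133 : chk 133 = true := by decide +kernel
theorem chk_141 : chk 141 = true := by decide +kernel
theorem chk_149 : chk 149 = true := by decide +kernel
theorem chk_157 : chk 157 = true := by decide +kernel
theorem chk_165 : chk 165 = true := by decide +kernel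
theorem chk_173 : chk 173 = true := by decide +kernel
theorem chk_181 : chk 181 = true := by decide +kernel
theorem chk_189 : chk 189 = true := by decide +kernel
theorem chk_197 : chk 197 = true := by decide +kernel
theorem chk_205 : chk 205 = true := by decide +kernel

end Pool.Agent.H893Z.Sat
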