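import Pool.Agent.H893Z.SatDefs

/-! Kernel runs of the search, values of the prime 3 congruent to 6 mod 8. -/

set_option autoImplicit false
set_option maxRecDepth 100000

namespace Pool.Agent.H893Z.Sat

theorem chk_6 : chk 6 = true := by decide +kernel
theorem chk_14 : chk 14 = true := by decide +kernel
theorem chk_22 : chk 22 = true := by decide +kernel
theorem chk_30 : chk 30 = true := by decide +kernel
theorem chk_38 : chk 38 = true := by decide +kernel
theorem chk_46 : chk 46 = true := by decide +kernel
theorem chk_54 : chk 54 = true := by decide +kernel
theorem chk_62 : chk 62 = true := by decide +kernel
theorem chk_70 : chk 70 = true := by decide +kernel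
theorem chk_78 : chk 78 = true := by decide +kernel
theorem chk_86 : chk 86 = true := by decide +kernel
theorem chk_94 : chk 94 = true := by decide +kernel
theorem chk_102 : chk 102 = true := by decide +kernel
theorem chk_110 : chk 110 = true := by decide +kernel
theorem chk_118 : chk 118 = true := by decide +kernel
theorem chk_126 : chk 126 = true := by decide +kernel
theorem chk_134 : chk 134 = true := by decide +kernel
theorem chk_142 : chk 142 = true := by decide +kernel
theorem chk_150 : chk 150 = true := by decide +kernel
theorem chk_158 : chk 158 = true := by decide +kernel
theorem chk_166 : chk 166 = true := by decide +kernel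
theorem chk_174 : chk 174 = true := by decide +kernel
theorem chk_182 : chk 182 = true := by decide +kernel
theorem chk_190 : chk 190 = true := by decide +kernel
theorem chk_198 : chk 198 = true := by decide +kernel
theorem chk_206 : chk 206 = true := by decide +kernel

end Pool.Agent.H893Z.Sat
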