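import Pool.Agent.H893Z.SatDefs

/-! Kernel runs of the search, values of the prime 3 congruent to 7 mod 8. -/

set_option autoImplicit false
set_option maxRecDepth 100000

namespace Pool.Agent.H893Z.Sat

theorem chk_7 : chk 7 = true := by decide +kernel
theorem chk_15 : chk 15 = true := by decide +kernel
theorem chk_23 : chk 23 = true := by decide +kernel
theorem chk_31 : chk 31 = true := by decide +kernel
theorem chk_39 : chk 39 = true := by decide +kernel
theorem chk_47 : chk 47 = true := by decide +kernel
theorem chk_55 : chk 55 = true := by decide +kernel
theorem chk_63 : chk 63 = true := by decide +kernel
theorem chk_71 : chk 71 = true := by decide +kernel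
theorem chk_79 : chk 79 = true := by decide +kernel
theorem chk_87 : chk 87 = true := by decide +kernel
theorem chk_95 : chk 95 = true := by decide +kernel
theorem chk_103 : chk 103 = true := by decide +kernel
theorem chk_111 : chk 111 = true := by decide +kernel
theorem chk_119 : chk 119 = true := by decide +kernel
theorem chk_127 : chk 127 = true := by decide +kernel
theorem chk_135 : chk 135 = true := by decide +kernel
theorem chk_143 : chk 143 = true := by decide +kernel
theorem chk_151 : chk 151 = true := by decide +kernel
theorem chk_159 : chk 159 = true := by decide +kernel
theorem chk_167 : chk 167 = true := by decide +kernel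
theorem chk_175 : chk 175 = true := by decide +kernel
theorem chk_183 : chk 183 = true := by decide +kernel
theorem chk_191 : chk 191 = true := by decide +kernel
theorem chk_199 : chk 199 = true := by decide +kernel
theorem chk_207 : chk 207 = true := by decide +kernel

end Pool.Agent.H893Z.Sat
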