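import Pool.Agent.H893Z.SatRun0
import Pool.Agent.H893Z.SatRun1
import Pool.Agent.H893Z.SatRun2
import Pool.Agent.H893Z.SatRun3
import Pool.Agent.H893Z.SatRun4
import Pool.Agent.H893Z.SatRun5
import Pool.Agent.H893Z.SatRun6
import Pool.Agent.H893Z.SatRun7

/-! All kernel runs together. -/

set_option autoImplicit false

namespace Pool.Agent.H893Z.Sat

theorem chk_all : ∀ a : Nat, a < 211 → chk a = true
  | 0, _ => chk_0
  | 1, _ => chk_1
  | 2, _ => chk_2
  | 3, _ => chk_3
  | 4, _ => chk_4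
  | 5, _ => chk_5
  | 6, _ => chk_6
  | 7, _ => chk_7
  | 8, _ => chk_8
  | 9, _ => chk_9
  | 10, _ => chk_10
  | 11, _ => chk_11
  | 12, _ => chk_12
  | 13, _ => chk_13
  | 14, _ => chk_14
  | 15, _ => chk_15
  | 16, _ => chk_16
  | 17, _ => chk_17
  | 18, _ => chk_18
  | 19, _ => chk_19
  | 20, _ => chk_20
  | 21, _ => chk_21
  | 22, _ => chk_22
  | 23, _ => chk_23
  | 24, _ => chk_24
  | 25, _ => chk_25
  | 26, _ => chk_26
  | 27, _ => chk_27
  | 28, _ => chk_28
  | 29, _ => chk_29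
  | 30, _ => chk_30
  | 31, _ => chk_31
  | 32, _ => chk_32
  | 33, _ => chk_33
  | 34, _ => chk_34
  | 35, _ => chk_35
  | 36, _ => chk_36
  | 37, _ => chk_37
  | 38, _ => chk_38
  | 39, _ => chk_39
  | 40, _ => chk_40
  | 41, _ => chk_41
  | 42, _ => chk_42
  | 43, _ => chk_43
  | 44, _ => chk_44
  | 45, _ => chk_45
  | 46, _ => chk_46
  | 47, _ => chk_47
  | 48, _ => chk_48
  | 49, _ => chk_49
  | 50, _ => chk_50
  | 51, _ => chk_51
  | 52, _ => chk_52
  | 53, _ => chk_53
  | 54, _ => chk_54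
  | 55, _ => chk_55
  | 56, _ => chk_56
  | 57, _ => chk_57
  | 58, _ => chk_58
  | 59, _ => chk_59
  | 60, _ => chk_60
  | 61, _ => chk_61
  | 62, _ => chk_62
  | 63, _ => chk_63
  | 64, _ => chk_64
  | 65, _ => chk_65
  | 66, _ => chk_66
  | 67, _ => chk_67
  | 68, _ => chk_68
  | 69, _ => chk_69
  | 70, _ => chk_70
  | 71, _ => chk_71
  | 72, _ => chk_72
  | 73, _ => chk_73
  | 74, _ => chk_74
  | 75, _ => chk_75
  | 76, _ => chk_76
  | 77, _ => chk_77
  | 78, _ => chk_78
  | 79, _ => chk_79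
  | 80, _ => chk_80
  | 81, _ => chk_81
  | 82, _ => chk_82
  | 83, _ => chk_83
  | 84, _ => chk_84
  | 85, _ => chk_85
  | 86, _ => chk_86
  | 87, _ => chk_87
  | 88, _ => chk_88
  | 89, _ => chk_89
  | 90, _ => chk_90
  | 91, _ => chk_91
  | 92, _ => chk_92
  | 93, _ => chk_93
  | 94, _ => chk_94
  | 95, _ => chk_95
  | 96, _ => chk_96
  | 97, _ => chk_97
  | 98, _ => chk_98
  | 99, _ => chk_99
  | 100, _ => chk_100
  | 101, _ => chk_101
  | 102, _ => chk_102
  | 103, _ => chk_103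
  | 104, _ => chk_104
  | 105, _ => chk_105
  | 106, _ => chk_106
  | 107, _ => chk_107
  | 108, _ => chk_108
  | 109, _ => chk_109
  | 110, _ => chk_110
  | 111, _ => chk_111
  | 112, _ => chk_112
  | 113, _ => chk_113
  | 114, _ => chk_114
  | 115, _ => chk_115
  | 116, _ => chk_116
  | 117, _ => chk_117
  | 118, _ => chk_118
  | 119, _ => chk_119
  | 120, _ => chk_120
  | 121, _ => chk_121
  | 122, _ => chk_122
  | 123, _ => chk_123
  | 124, _ => chk_124
  | 125, _ => chk_125
  | 126, _ => chk_126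
  | 127, _ => chk_127
  | 128, _ => chk_128
  | 129, _ => chk_129
  | 130, _ => chk_130
  | 131, _ => chk_131
  | 132, _ => chk_132
  | 133, _ => chk_133
  | 134, _ => chk_134
  | 135, _ => chk_135
  | 136, _ => chk_136
  | 137, _ => chk_137
  | 138, _ => chk_138
  | 139, _ => chk_139
  | 140, _ => chk_140
  | 141, _ => chk_141
  | 142, _ => chk_142
  | 143, _ => chk_143
  | 144, _ => chk_144
  | 145, _ => chk_145
  | 146, _ => chk_146
  | 147, _ => chk_147
  | 148, _ => chk_148
  | 149, _ => chk_149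
  | 150, _ => chk_150
  | 151, _ => chk_151
  | 152, _ => chk_152
  | 153, _ => chk_153
  | 154, _ => chk_154
  | 155, _ => chk_155
  | 156, _ => chk_156
  | 157, _ => chk_157
  | 158, _ => chk_158
  | 159, _ => chk_159
  | 160, _ => chk_160
  | 161, _ => chk_161
  | 162, _ => chk_162
  | 163, _ => chk_163
  | 164, _ => chk_164
  | 165, _ => chk_165
  | 166, _ => chk_166
  | 167, _ => chk_167
  | 168, _ => chk_168
  | 169, _ => chk_169
  | 170, _ => chk_170
  | 171, _ => chk_171
  | 172, _ => chk_172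
  | 173, _ => chk_173
  | 174, _ => chk_174
  | 175, _ => chk_175
  | 176, _ => chk_176
  | 177, _ => chk_177
  | 178, _ => chk_178
  | 179, _ => chk_179
  | 180, _ => chk_180
  | 181, _ => chk_181
  | 182, _ => chk_182
  | 183, _ => chk_183
  | 184, _ => chk_184
  | 185, _ => chk_185
  | 186, _ => chk_186
  | 187, _ => chk_187
  | 188, _ => chk_188
  | 189, _ => chk_189
  | 190, _ => chk_190
  | 191, _ => chk_191
  | 192, _ => chk_192
  | 193, _ => chk_193
  | 194, _ => chk_194
  | 195, _ => chk_195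
  | 196, _ => chk_196
  | 197, _ => chk_197
  | 198, _ => chk_198
  | 199, _ => chk_199
  | 200, _ => chk_200
  | 201, _ => chk_201
  | 202, _ => chk_202
  | 203, _ => chk_203
  | 204, _ => chk_204
  | 205, _ => chk_205
  | 206, _ => chk_206
  | 207, _ => chk_207
  | 208, _ => chk_208
  | 209, _ => chk_209
  | 210, _ => chk_210
  | n + 211, h => absurd h (by omega)

end Pool.Agent.H893Z.Sat
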