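/-! Bit-mask search for an additive logarithm of length 211 (definitions). -/

set_option autoImplicit false

namespace Pool.Agent.H893Z.Sat

/-- `2^211 - 1`. -/
def MM : Nat := 3291009114642412084309938365114701009965471731267159726697218047

/-- `2^211 + 1`. -/
def KK : Nat := 3291009114642412084309938365114701009965471731267159726697218049

/-- `2^211`. -/
def PP : Nat := 3291009114642412084309938365114701009965471731267159726697218048

/-- lookup table for the position of a single bit. -/
def TT : Nat := 2075047441393642094760590872405993193469920273954576482722916481997967286642781498921798421396542000869564872957260118764776808765041141454387851262639713232002687359842756040881640873971537671354815994791263046015821244506194430457603765700325843859659207907154092658924274340965632526176801662964240896749529475790612881163847041662985415296371771337895448352134830561477578603454248690209981743155470149110437148152699709149965745092456893965680906757945924164437154831359560046123593314076466680920911323459809000423701765640624472534835855360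

/-- position of the lowest set bit (no property of it is needed). -/
def idx (A : Nat) : Nat :=
  Nat.mod (Nat.shiftRight TT (Nat.mul (Nat.mod (Nat.gcd A PP) 227) 8)) 256

def tr (DS w : Nat) : Nat := Nat.land (Nat.shiftRight DS (Nat.sub 211 w)) MM

def dbl (Y : Nat) : Nat := Nat.lor Y (Nat.shiftLeft Y 211)

noncomputable def forb (DU : Nat) (l : List Nat) : Nat :=
  List.rec (motive := fun _ => Nat) 0 (fun s _ ih => Nat.lor (Nat.shiftRight DU s) ih) l

noncomputable def dmask (l : List Nat) : Nat :=
  List.rec (motive := fun _ => Nat) 0 (fun s _ ih => Nat.lor (Nat.shiftLeft KK s) ih) l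

noncomputable def force (n : Nat) (k : Nat → Bool) : Bool :=
  Nat.rec (motive := fun _ => Bool) (k 0) (fun m _ => k (Nat.succ m)) n

noncomputable def loop (f : Nat → Bool) (k : Nat) : Nat → Bool :=
  Nat.rec (motive := fun _ => Nat → Bool) (fun A => Nat.beq A 0)
    (fun _ ih A => Bool.rec (motive := fun _ => Bool)
      (force (idx A) fun v =>
        Bool.rec (motive := fun _ => Bool) false (ih (Nat.xor A (Nat.shiftLeft 1 v))) (f v))
      true (Nat.beq A 0)) k

noncomputable def addLayer (DU DS w : Nat) (k : Nat → Bool) : Bool :=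
  force (tr DS w) fun Y =>
  Bool.rec (motive := fun _ => Bool) true (force (Nat.lor DU (dbl Y)) k)
    (Nat.beq (Nat.land Y DU) 0)

/-- branch on all values not excluded by the mask `F`, adding the translate of `DS`. -/
noncomputable def stepF (F DU DS : Nat) (k : Nat → Nat → Bool) : Bool :=
  force DS fun DS' =>
  loop (fun v => force (tr DS' v) fun Y => force (Nat.lor DU (dbl Y)) (k v)) 211
    (Nat.xor MM (Nat.land MM F))

def ad (x y : Nat) : Nat := Nat.mod (Nat.add x y) 211

noncomputable def stepL (DU : Nat) (ss : List Nat) (k : Nat → Bool) : Bool :=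
  stepF (forb DU ss) DU (dmask ss) (fun _ U => k U)

/-- levels 17 and up; `a b c d` are the values at 3, 5, 7, 11. -/
noncomputable def lvl17 (a b c d DU : Nat) : Bool :=
  stepL DU [0, 1, a, 2, b, ad a 1, c, 3, ad a a, ad b 1, d, ad a 2] fun U =>
  stepL U [0, 1, a, 2, b, ad a 1, c, 3, ad a a, ad b 1, d] fun U =>
  stepL U [0, 1, a, 2, b, ad a 1, c, 3, ad a a] fun U =>
  stepL U [0, 1, a, 2, b, ad a 1, c] fun U =>
  stepL U [0, 1, a, 2, b, ad a 1] fun U =>
  stepL U [0, 1, a, 2, b] fun U =>
  stepL U [0, 1, a, 2, b] fun _ => false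

/-- values at 1,2,3,4,5,6,8,9,10,12,15,16. -/
def base16 (a b : Nat) : List Nat :=
  [0, 1, a, 2, b, ad a 1, 3, ad a a, ad b 1, ad a 2, ad a b, 4]

/-- excluded values for multipliers 1,2,4,8,16,3,6,12,5,10,7,14,15 and those given by `X`. -/
noncomputable def fcom (a b c ab U W1 X : Nat) : Nat :=
  Nat.lor X (Nat.lor (Nat.lor (Nat.lor W1 (Nat.shiftRight U 2)) (Nat.shiftRight W1 3))
    (Nat.lor (Nat.shiftRight (Nat.lor W1 (Nat.shiftRight U 2)) a)
      (Nat.lor (Nat.shiftRight W1 b) (Nat.lor (Nat.shiftRight W1 c) (Nat.shiftRight U ab)))))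

noncomputable def lvl13 (a b c d aa ab D13 DU : Nat) : Bool :=
  stepF (fcom a b c ab DU (Nat.lor DU (Nat.shiftRight DU 1))
      (Nat.lor (Nat.shiftRight DU aa) (Nat.shiftRight DU d)))
    DU (Nat.lor (Nat.shiftLeft KK d) D13) fun e U =>
  addLayer U KK (ad e e) fun U => lvl17 a b c d U

noncomputable def lvl11 (a b c aa ab D13 x18 DU : Nat) : Bool :=
  force (Nat.lor DU (Nat.shiftRight DU 1)) fun W1 =>
  stepF (fcom a b c ab DU W1 (Nat.shiftRight W1 aa))
    DU (Nat.lor (Nat.shiftLeft KK x18) D13) fun d U =>
  addLayer U KK (ad d d) fun U => lvl13 a b c d aa ab D13 U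

noncomputable def lvl7 (a b aa ab D16 D4 x18 : Nat) (s30 : List Nat) (DU : Nat) : Bool :=
  force (dmask s30) fun D30 =>
  force (forb DU [0, 1, a, 2]) fun F2 =>
  loop (fun c => force (ad c c) fun cc =>
    Bool.rec (motive := fun _ => Bool) true
      (force (tr D30 c) fun Y => force (Nat.lor DU (dbl Y)) fun U =>
        addLayer U D4 cc fun U =>
        force (Nat.lor (Nat.shiftLeft KK c) (Nat.lor (Nat.shiftLeft KK (ad c 1)) D16)) fun D13 =>
        lvl11 a b c aa ab D13 x18 U)
      (Nat.beq (Nat.land (Nat.shiftRight F2 cc) 1) 0)) 211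
    (Nat.xor MM (Nat.land MM (forb DU s30)))

/-- values at 1,2,3,4,6,8,9,12,16,18,24,27,32,36. -/
def s42 (a : Nat) : List Nat :=
  [0, 1, a, 2, ad a 1, 3, ad a a, ad a 2, 4, ad (ad a a) 1, ad a 3, ad (ad a a) a, 5, ad (ad a a) 2]

noncomputable def lvl5 (a DU : Nat) : Bool :=
  stepF (forb DU (s42 a)) DU (dmask (s42 a)) fun b U =>
  addLayer U (dmask [0, 1, a, 2, ad a 1, 3]) (ad b b) fun U =>
  addLayer U KK (ad (ad b b) b) fun U =>
  force (dmask (base16 a b)) fun D16 =>
  force (dmask [0, 1, a, 2]) fun D4 =>
  force (ad a a) fun aa =>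
  force (ad a b) fun ab =>
  force (ad aa 1) fun x18 =>
  lvl7 a b aa ab D16 D4 x18
    (x18 :: ad b 2 :: ad a 3 :: ad b b :: ad aa a :: ad ab 1 :: base16 a b) U

noncomputable def chk (a : Nat) : Bool :=
  addLayer (dmask [0, 1, 2, 3, 4, 5, 6, 7]) (dmask [0, 1, 2, 3, 4, 5, 6]) a fun U =>
  addLayer U (dmask [0, 1, 2, 3, 4]) (ad a a) fun U =>
  addLayer U (dmask [0, 1, 2]) (ad (ad a a) a) fun U =>
  addLayer U (dmask [0, 1]) (ad (ad (ad a a) a) a) fun U =>
  lvl5 a U

end Pool.Agent.H893Z.Sat
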