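import Pool.Agent.H893Z.SatSound

/-! Soundness of the bit-mask search: the levels. -/

set_option autoImplicit false
set_option maxRecDepth 100000

namespace Pool.Agent.H893Z.Sat

variable {g : ℕ → ℕ}

theorem gv (hg : Good g) (x y z : ℕ) (h : 1 ≤ x ∧ 1 ≤ y ∧ x * y ≤ 211 ∧ z = x * y) :
    g z = ad (g x) (g y) := by
  obtain ⟨h1, h2, h3, rfl⟩ := h
  exact hg.add x y h1 h2 h3

theorem g4 (hg : Good g) : g 4 = 2 := by rw [gv hg 2 2 4 (by decide), hg.two]; rfl
theorem g8 (hg : Good g) : g 8 = 3 := by rw [gv hg 4 2 8 (by decide), hg.two, g4 hg]; rfl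
theorem g16 (hg : Good g) : g 16 = 4 := by rw [gv hg 8 2 16 (by decide), hg.two, g8 hg]; rfl
theorem g32 (hg : Good g) : g 32 = 5 := by rw [gv hg 16 2 32 (by decide), hg.two, g16 hg]; rfl
theorem g64 (hg : Good g) : g 64 = 6 := by rw [gv hg 32 2 64 (by decide), hg.two, g32 hg]; rfl
theorem g128 (hg : Good g) : g 128 = 7 := by rw [gv hg 64 2 128 (by decide), hg.two, g64 hg]; rfl
theorem g6 (hg : Good g) : g 6 = ad (g 3) 1 := by rw [gv hg 3 2 6 (by decide), hg.two]
theorem g9 (hg : Good g) : g 9 = ad (g 3) (g 3) := gv hg 3 3 9 (by decide)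
theorem g10 (hg : Good g) : g 10 = ad (g 5) 1 := by rw [gv hg 5 2 10 (by decide), hg.two]
theorem g12 (hg : Good g) : g 12 = ad (g 3) 2 := by rw [gv hg 3 4 12 (by decide), g4 hg]
theorem g14 (hg : Good g) : g 14 = ad (g 7) 1 := by rw [gv hg 7 2 14 (by decide), hg.two]
theorem g15 (hg : Good g) : g 15 = ad (g 3) (g 5) := gv hg 3 5 15 (by decide)
theorem g18 (hg : Good g) : g 18 = ad (ad (g 3) (g 3)) 1 := by
  rw [gv hg 9 2 18 (by decide), hg.two, g9 hg]
theorem g20 (hg : Good g) : g 20 = ad (g 5) 2 := by rw [gv hg 5 4 20 (by decide), g4 hg]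
theorem g24 (hg : Good g) : g 24 = ad (g 3) 3 := by rw [gv hg 3 8 24 (by decide), g8 hg]
theorem g25 (hg : Good g) : g 25 = ad (g 5) (g 5) := gv hg 5 5 25 (by decide)
theorem g27 (hg : Good g) : g 27 = ad (ad (g 3) (g 3)) (g 3) := by
  rw [gv hg 9 3 27 (by decide), g9 hg]
theorem g30 (hg : Good g) : g 30 = ad (ad (g 3) (g 5)) 1 := by
  rw [gv hg 15 2 30 (by decide), hg.two, g15 hg]
theorem g36 (hg : Good g) : g 36 = ad (ad (g 3) (g 3)) 2 := by
  rw [gv hg 9 4 36 (by decide), g4 hg, g9 hg]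
theorem g49 (hg : Good g) : g 49 = ad (g 7) (g 7) := gv hg 7 7 49 (by decide)
theorem g81 (hg : Good g) : g 81 = ad (ad (ad (g 3) (g 3)) (g 3)) (g 3) := by
  rw [gv hg 27 3 81 (by decide), g27 hg]
theorem g121 (hg : Good g) : g 121 = ad (g 11) (g 11) := gv hg 11 11 121 (by decide)
theorem g125 (hg : Good g) : g 125 = ad (ad (g 5) (g 5)) (g 5) := by
  rw [gv hg 25 5 125 (by decide), g25 hg]
theorem g169 (hg : Good g) : g 169 = ad (g 13) (g 13) := gv hg 13 13 169 (by decide)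

theorem ad_lt (x y : ℕ) : ad x y < 211 := Nat.mod_lt _ (by norm_num)

def P2 : List ℕ := [1, 2, 4, 8, 16, 32, 64, 128]
def P3 : List ℕ := [1, 2].map (81 * ·) ++ ([1, 2, 4].map (27 * ·) ++ ([1, 2, 4, 8, 16].map (9 * ·) ++
  ([1, 2, 4, 8, 16, 32, 64].map (3 * ·) ++ P2)))
def M42 : List ℕ := [1, 2, 3, 4, 6, 8, 9, 12, 16, 18, 24, 27, 32, 36]
def P5 : List ℕ := [1].map (125 * ·) ++ ([1, 2, 3, 4, 6, 8].map (25 * ·) ++ (M42.map (5 * ·) ++ P3))
def M16 : List ℕ := [1, 2, 3, 4, 5, 6, 8, 9, 10, 12, 15, 16]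
def M30 : List ℕ := 18 :: 20 :: 24 :: 25 :: 27 :: 30 :: M16
def P7 : List ℕ := [1, 2, 3, 4].map (49 * ·) ++ (M30.map (7 * ·) ++ P5)
def M13 : List ℕ := 7 :: 14 :: M16
def P11 : List ℕ := [1].map (121 * ·) ++ ((18 :: M13).map (11 * ·) ++ P7)
def P13 : List ℕ := [1].map (169 * ·) ++ ((11 :: M13).map (13 * ·) ++ P11)

theorem lvl17_sound (hg : Good g) {U : ℕ} (hU : Inv g P13 U) :
    lvl17 (g 3) (g 5) (g 7) (g 11) U ≠ true := by
  intro h
  unfold lvl17 at h
  obtain ⟨U, hU, h⟩ := stepL_sound hg (p := 17) (ms := [1, 2, 3, 4, 5, 6, 7, 8, 9, 10, 11, 12]) hU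
    (by simp [hg.one, hg.two, g4 hg, g6 hg, g8 hg, g9 hg, g10 hg, g12 hg])
    (by decide) (by decide) (by decide +kernel) (by decide +kernel) h
  obtain ⟨U, hU, h⟩ := stepL_sound hg (p := 19) (ms := [1, 2, 3, 4, 5, 6, 7, 8, 9, 10, 11]) hU
    (by simp [hg.one, hg.two, g4 hg, g6 hg, g8 hg, g9 hg, g10 hg])
    (by decide) (by decide) (by decide +kernel) (by decide +kernel) h
  obtain ⟨U, hU, h⟩ := stepL_sound hg (p := 23) (ms := [1, 2, 3, 4, 5, 6, 7, 8, 9]) hU
    (by simp [hg.one, hg.two, g4 hg, g6 hg, g8 hg, g9 hg])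
    (by decide) (by decide) (by decide +kernel) (by decide +kernel) h
  obtain ⟨U, hU, h⟩ := stepL_sound hg (p := 29) (ms := [1, 2, 3, 4, 5, 6, 7]) hU
    (by simp [hg.one, hg.two, g4 hg, g6 hg])
    (by decide) (by decide) (by decide +kernel) (by decide +kernel) h
  obtain ⟨U, hU, h⟩ := stepL_sound hg (p := 31) (ms := [1, 2, 3, 4, 5, 6]) hU
    (by simp [hg.one, hg.two, g4 hg, g6 hg])
    (by decide) (by decide) (by decide +kernel) (by decide +kernel) h
  obtain ⟨U, hU, h⟩ := stepL_sound hg (p := 37) (ms := [1, 2, 3, 4, 5]) hU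
    (by simp [hg.one, hg.two, g4 hg])
    (by decide) (by decide) (by decide +kernel) (by decide +kernel) h
  obtain ⟨U, hU, h⟩ := stepL_sound hg (p := 41) (ms := [1, 2, 3, 4, 5]) hU
    (by simp [hg.one, hg.two, g4 hg])
    (by decide) (by decide) (by decide +kernel) (by decide +kernel) h
  exact absurd h (by simp)

theorem sh_W1 (hg : Good g) {P : List ℕ} {U : ℕ} (hU : Inv g P U) :
    Sh g P [1, 2] (Nat.lor U (Nat.shiftRight U 1)) :=
  sh_or (sh_base hg hU) (sh_shift hg (sh_base hg hU) hg.two (by decide) (by decide))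

theorem sh_fcom (hg : Good g) {P R : List ℕ} {U W1 X : ℕ} (hU : Inv g P U)
    (h1 : Sh g P [1, 2] W1) (hX : Sh g P R X) :
    Sh g P (R ++ [1, 2, 4, 8, 16, 3, 6, 12, 5, 10, 7, 14, 15])
      (fcom (g 3) (g 5) (g 7) (ad (g 3) (g 5)) U W1 X) := by
  have h0 := sh_base hg hU
  have h2 : Sh g P [1, 2, 4] (Nat.lor W1 (Nat.shiftRight U 2)) :=
    sh_or h1 (sh_shift hg h0 (g4 hg) (by decide) (by decide))
  exact sh_or hX (sh_or (sh_or h2 (sh_shift hg h1 (g8 hg) (by decide) (by decide)))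
    (sh_or (sh_shift hg h2 (r := 3) rfl (by decide) (by decide))
      (sh_or (sh_shift hg h1 (r := 5) rfl (by decide) (by decide))
        (sh_or (sh_shift hg h1 (r := 7) rfl (by decide) (by decide))
          (sh_shift hg h0 (g15 hg) (by decide) (by decide))))))

theorem lvl13_sound (hg : Good g) {U D13 : ℕ} (hU : Inv g P11 U) (hD : Inv g M13 D13) :
    lvl13 (g 3) (g 5) (g 7) (g 11) (ad (g 3) (g 3)) (ad (g 3) (g 5)) D13 U ≠ true := by
  intro h
  unfold lvl13 at h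
  have h0 := sh_base hg hU
  have hF := sh_fcom hg hU (sh_W1 hg hU)
    (sh_or (sh_shift hg h0 (g9 hg) (by decide) (by decide))
      (sh_shift hg h0 (r := 11) rfl (by decide) (by decide)))
  obtain ⟨U, hU, h⟩ := stepF_sound hg (p := 13) hU
    (inv_cons (m := 11) hD rfl (hg.lt 11 (by decide) (by decide))) hF
    (by decide) (by decide) (by decide +kernel) (by decide +kernel) (by decide +kernel) h
  obtain ⟨U, hU, h⟩ := addLayer_sound hg hU (inv_KK hg) (g169 hg) (by decide)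
    (by decide +kernel) (by decide +kernel) h
  exact lvl17_sound hg hU h

theorem lvl11_sound (hg : Good g) {U D13 : ℕ} (hU : Inv g P7 U) (hD : Inv g M13 D13) :
    lvl11 (g 3) (g 5) (g 7) (ad (g 3) (g 3)) (ad (g 3) (g 5)) D13 (ad (ad (g 3) (g 3)) 1) U
      ≠ true := by
  intro h
  unfold lvl11 at h
  rw [force_eq] at h
  have h1 := sh_W1 hg hU
  have hF := sh_fcom hg hU h1 (sh_shift hg h1 (g9 hg) (by decide) (by decide))
  obtain ⟨U, hU, h⟩ := stepF_sound hg (p := 11) hU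
    (inv_cons (m := 18) hD (g18 hg) (ad_lt _ _)) hF
    (by decide) (by decide) (by decide +kernel) (by decide +kernel) (by decide +kernel) h
  obtain ⟨U, hU, h⟩ := addLayer_sound hg hU (inv_KK hg) (g121 hg) (by decide)
    (by decide +kernel) (by decide +kernel) h
  exact lvl13_sound hg hU hD h

theorem lvl7_sound (hg : Good g) {U D16 D4 : ℕ} (hU : Inv g P5 U) (hD : Inv g M16 D16)
    (h4 : Inv g [1, 2, 3, 4] D4) :
    lvl7 (g 3) (g 5) (ad (g 3) (g 3)) (ad (g 3) (g 5)) D16 D4 (ad (ad (g 3) (g 3)) 1)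
      (M30.map g) U ≠ true := by
  intro h
  unfold lvl7 at h
  rw [force_eq, force_eq] at h
  have h7 : g 7 < 211 := hg.lt 7 (by decide) (by decide)
  have hc := loop_sound _ _ _ h (g 7) (cand_bit (sh_excl hg (p := 7) (sh_forb hU M30) (by decide)
    (by decide +kernel) (by decide +kernel)) h7)
  rw [force_eq] at hc
  have e4 : [0, 1, g 3, 2] = [1, 2, 3, 4].map g := by simp [hg.one, hg.two, g4 hg]
  have hb : (forb U [0, 1, g 3, 2]).testBit (ad (g 7) (g 7)) = false := by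
    rw [e4, ← g49 hg]
    exact sh_excl hg (p := 49) (sh_forb hU [1, 2, 3, 4]) (by decide)
      (by decide +kernel) (by decide +kernel)
  have hb' : Nat.land (Nat.shiftRight (forb U [0, 1, g 3, 2]) (ad (g 7) (g 7))) 1 = 0 := by
    show (forb U [0, 1, g 3, 2] >>> ad (g 7) (g 7)) &&& 1 = 0
    unfold Nat.testBit at hb
    rw [Nat.land_comm]
    simpa using hb
  rw [hb'] at hc
  have hc' : force (tr (dmask (M30.map g)) (g 7)) (fun Y => force (Nat.lor U (dbl Y)) fun U =>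
        addLayer U D4 (ad (g 7) (g 7)) fun U =>
        force (Nat.lor (Nat.shiftLeft KK (g 7)) (Nat.lor (Nat.shiftLeft KK (ad (g 7) 1)) D16))
          fun D13 => lvl11 (g 3) (g 5) (g 7) (ad (g 3) (g 3)) (ad (g 3) (g 5)) D13
            (ad (ad (g 3) (g 3)) 1) U) = true := hc
  rw [force_eq, force_eq] at hc'
  have hU1 := inv_add hg (q := 7) hU (inv_dmask hg M30 (by decide +kernel)) rfl (by decide)
    (by decide +kernel)
  obtain ⟨U, hU, h⟩ := addLayer_sound hg hU1 h4 (g49 hg) (by decide)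
    (by decide +kernel) (by decide +kernel) hc'
  rw [force_eq] at h
  exact lvl11_sound hg hU
    (inv_cons (m := 7) (inv_cons (m := 14) hD (g14 hg) (ad_lt _ _)) rfl h7) h

theorem lvl5_sound (hg : Good g) {U : ℕ} (hU : Inv g P3 U) : lvl5 (g 3) U ≠ true := by
  intro h
  unfold lvl5 at h
  have e42 : s42 (g 3) = M42.map g := by
    simp [s42, M42, hg.one, hg.two, g4 hg, g6 hg, g8 hg, g9 hg, g12 hg, g16 hg, g18 hg, g24 hg,
      g27 hg, g32 hg, g36 hg]
  have e8 : [0, 1, g 3, 2, ad (g 3) 1, 3] = [1, 2, 3, 4, 6, 8].map g := by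
    simp [hg.one, hg.two, g4 hg, g6 hg, g8 hg]
  have e4 : [0, 1, g 3, 2] = [1, 2, 3, 4].map g := by simp [hg.one, hg.two, g4 hg]
  have e16 : base16 (g 3) (g 5) = M16.map g := by
    simp [base16, M16, hg.one, hg.two, g4 hg, g6 hg, g8 hg, g9 hg, g10 hg, g12 hg, g15 hg, g16 hg]
  rw [e42, e8, e4] at h
  obtain ⟨U, hU, h⟩ := stepF_sound hg (p := 5) hU (inv_dmask hg M42 (by decide +kernel))
    (sh_forb hU M42)
    (by decide) (by decide) (by decide +kernel) (by decide +kernel) (by decide +kernel) h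
  obtain ⟨U, hU, h⟩ := addLayer_sound hg hU (inv_dmask hg _ (by decide +kernel)) (g25 hg)
    (by decide) (by decide +kernel) (by decide +kernel) h
  obtain ⟨U, hU, h⟩ := addLayer_sound hg hU (inv_KK hg) (g125 hg)
    (by decide) (by decide +kernel) (by decide +kernel) h
  rw [force_eq, force_eq, force_eq, force_eq, force_eq, e16] at h
  have e30 : ad (ad (g 3) (g 3)) 1 :: ad (g 5) 2 :: ad (g 3) 3 :: ad (g 5) (g 5) ::
      ad (ad (g 3) (g 3)) (g 3) :: ad (ad (g 3) (g 5)) 1 :: M16.map g = M30.map g := by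
    simp [M30, g18 hg, g20 hg, g24 hg, g25 hg, g27 hg, g30 hg]
  rw [e30] at h
  exact lvl7_sound hg hU (inv_dmask hg M16 (by decide +kernel))
    (inv_dmask hg _ (by decide +kernel)) h

theorem chk_sound (hg : Good g) : chk (g 3) ≠ true := by
  intro h
  unfold chk at h
  have e7 : [0, 1, 2, 3, 4, 5, 6, 7] = P2.map g := by
    simp [P2, hg.one, hg.two, g4 hg, g8 hg, g16 hg, g32 hg, g64 hg, g128 hg]
  have e6 : [0, 1, 2, 3, 4, 5, 6] = [1, 2, 4, 8, 16, 32, 64].map g := by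
    simp [hg.one, hg.two, g4 hg, g8 hg, g16 hg, g32 hg, g64 hg]
  have e4 : [0, 1, 2, 3, 4] = [1, 2, 4, 8, 16].map g := by
    simp [hg.one, hg.two, g4 hg, g8 hg, g16 hg]
  have e2 : [0, 1, 2] = [1, 2, 4].map g := by simp [hg.one, hg.two, g4 hg]
  have e1 : [0, 1] = [1, 2].map g := by simp [hg.one, hg.two]
  rw [e7, e6, e4, e2, e1] at h
  obtain ⟨U, hU, h⟩ := addLayer_sound hg (q := 3) (inv_dmask hg P2 (by decide +kernel))
    (inv_dmask hg _ (by decide +kernel)) rfl (by decide) (by decide +kernel) (by decide +kernel) h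
  obtain ⟨U, hU, h⟩ := addLayer_sound hg hU (inv_dmask hg _ (by decide +kernel)) (g9 hg)
    (by decide) (by decide +kernel) (by decide +kernel) h
  obtain ⟨U, hU, h⟩ := addLayer_sound hg hU (inv_dmask hg _ (by decide +kernel)) (g27 hg)
    (by decide) (by decide +kernel) (by decide +kernel) h
  obtain ⟨U, hU, h⟩ := addLayer_sound hg hU (inv_dmask hg _ (by decide +kernel)) (g81 hg)
    (by decide) (by decide +kernel) (by decide +kernel) h
  exact lvl5_sound hg hU h

end Pool.Agent.H893Z.Sat
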