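import Pool.Agent.H893Z.SatRed
import Pool.Agent.H893Z.SatLevels
import Pool.Agent.H893Z.SatAll

/-! There is no 211-satisfactory colouring of the positive integers. -/

set_option autoImplicit false

namespace Pool.Agent.H893Z.Sat

theorem no_good (g : ℕ → ℕ) : ¬ Good g := fun hg =>
  chk_sound hg (chk_all _ (hg.lt 3 (by decide) (by decide)))

theorem no_colouring : ¬ ∃ c : ℕ → Fin 211, ∀ a : ℕ, 0 < a →
    Set.InjOn (fun i : ℕ => c (i * a)) (Set.Icc 1 211) := by
  rintro ⟨c, hc⟩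
  have hp : Nat.Prime 211 := by norm_num
  have := Fact.mk hp
  have hs : Sep 211 c 1 := by
    intro a ha
    simpa using hc a ha
  obtain ⟨f, hadd, hinj⟩ := exists_log hp hs
  have mem : ∀ m, 1 ≤ m → m ≤ 211 → m ∈ ((Finset.Icc 1 211 : Finset ℕ) : Set ℕ) :=
    fun m h1 h2 => Finset.mem_coe.2 (Finset.mem_Icc.2 ⟨h1, h2⟩)
  have h1 : f 1 = 0 := by
    have := hadd 1 1 le_rfl le_rfl (by norm_num)
    simpa using this
  have h2 : f 2 ≠ 0 := by
    intro h
    have := hinj (mem 2 (by norm_num) (by norm_num)) (mem 1 (by norm_num) (by norm_num))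
      (h.trans h1.symm)
    omega
  refine no_good (fun m => (f m * (f 2)⁻¹).val) ⟨fun m _ _ => ZMod.val_lt _, ?_, ?_, ?_, ?_⟩
  · intro m n a1 a2 b1 b2 e
    exact hinj (mem m a1 a2) (mem n b1 b2)
      (mul_right_cancel₀ (inv_ne_zero h2) (ZMod.val_injective _ e))
  · intro x y hx hy hxy
    show (f (x * y) * (f 2)⁻¹).val = _
    rw [hadd x y hx hy hxy, add_mul, ZMod.val_add]
  · show (f 1 * (f 2)⁻¹).val = 0
    rw [h1, zero_mul, ZMod.val_zero]
  · show (f 2 * (f 2)⁻¹).val = 1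
    rw [mul_inv_cancel₀ h2, ZMod.val_one]

end Pool.Agent.H893Z.Sat
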