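import Mathlib

/-! For prime `p`, a `p`-satisfactory colouring yields an additive logarithm `{1..p} → ℤ/p`. -/

set_option autoImplicit false

namespace Pool.Agent.H893Z.Sat

open Finset Polynomial

/-- Dilation operators on functions on `ℕ`. -/
def rho (K : Type) [Field K] (m : ℕ) : Module.End K (ℕ → K) where
  toFun φ := fun a => φ (m * a)
  map_add' _ _ := rfl
  map_smul' _ _ := rfl

theorem rho_apply {K : Type} [Field K] (m : ℕ) (φ : ℕ → K) (a : ℕ) : rho K m φ a = φ (m * a) := rfl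

theorem rho_mul {K : Type} [Field K] (m n : ℕ) : rho K (m * n) = rho K m * rho K n := by
  ext φ a
  simp only [Module.End.mul_apply, rho_apply]
  congr 1; ring

theorem rho_one {K : Type} [Field K] : rho K 1 = 1 := by
  ext φ a; simp [rho_apply]

theorem rho_pow {K : Type} [Field K] (m k : ℕ) : rho K (m ^ k) = rho K m ^ k := by
  induction k with
  | zero => simpa using rho_one
  | succ k ih => rw [pow_succ, rho_mul, ih, pow_succ]

theorem rho_comm {K : Type} [Field K] (m n : ℕ) : Commute (rho K m) (rho K n) := by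
  unfold Commute SemiconjBy
  rw [← rho_mul, ← rho_mul, mul_comm]

theorem sum_pow_comm {R ι : Type} [Ring R] (q : ℕ) [Fact q.Prime] [CharP R q] (s : Finset ι)
    (f : ι → R) (h : ∀ i j, Commute (f i) (f j)) : (∑ i ∈ s, f i) ^ q = ∑ i ∈ s, f i ^ q := by
  classical
  induction s using Finset.induction_on with
  | empty => simp [(Fact.out : q.Prime).ne_zero]
  | insert a s ha ih =>
    rw [sum_insert ha, sum_insert ha, add_pow_char_of_commute _ (Commute.sum_right _ _ _ fun i _ => h a i),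
      ih]

variable {p : ℕ} {c : ℕ → Fin p}

/-- The colouring separates the `r`-th powers. -/
def Sep (p : ℕ) (c : ℕ → Fin p) (r : ℕ) : Prop :=
  ∀ a : ℕ, 0 < a → Set.InjOn (fun i : ℕ => c (i ^ r * a)) (Icc 1 p : Finset ℕ)

theorem Sep.sum_one {K : Type} [Field K] {r : ℕ} (h : Sep p c r) (j : Fin p) {a : ℕ} (ha : 0 < a) :
    ∑ i ∈ Icc 1 p, (if c (i ^ r * a) = j then (1 : K) else 0) = 1 := by
  obtain ⟨i0, hi0, e⟩ := surjOn_of_injOn_of_card_le (t := (univ : Finset (Fin p)))
    (fun i : ℕ => c (i ^ r * a)) (fun _ _ => by simp) (h a ha) (by simp) (mem_coe.2 (mem_univ j))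
  rw [sum_eq_single i0]
  · simp only at e; simp [e]
  · intro b hb hne
    rw [if_neg]
    intro hb'
    exact hne (h a ha (mem_coe.2 hb) hi0 (by simp only at e ⊢; rw [hb', e]))
  · intro hn; exact absurd (mem_coe.1 hi0) hn

theorem Sep.dilate {r q : ℕ} (h : Sep p c r) (hq : q.Prime) (hqp : ¬ q ∣ p) : Sep p c (r * q) := by
  have := Fact.mk hq
  intro a ha
  refine injOn_of_surjOn_of_card_le (t := (univ : Finset (Fin p))) _ (fun _ _ => by simp) ?_ (by simp)
  intro j _
  have : CharP (Module.End (ZMod q) (ℕ → ZMod q)) q :=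
    charP_of_injective_algebraMap (algebraMap (ZMod q) _).injective q
  set φ : ℕ → ZMod q := fun m => if c m = j then 1 else 0 with hφ
  set T : Module.End (ZMod q) (ℕ → ZMod q) := ∑ i ∈ Icc 1 p, rho (ZMod q) (i ^ r) with hT
  have hTa : ∀ (ψ : ℕ → ZMod q) (b : ℕ), T ψ b = ∑ i ∈ Icc 1 p, ψ (i ^ r * b) := by
    intro ψ b
    simp [hT, LinearMap.sum_apply, Finset.sum_apply, rho_apply]
  have key : ∀ k b : ℕ, 0 < b → (T ^ (k + 1)) φ b = (p : ZMod q) ^ k := by
    intro k
    induction k with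
    | zero => intro b hb; rw [zero_add, pow_one, hTa, pow_zero]; exact h.sum_one j hb
    | succ k ih =>
      intro b hb
      rw [pow_succ', Module.End.mul_apply, hTa, sum_congr rfl fun i hi =>
        ih _ (Nat.mul_pos (pow_pos (mem_Icc.1 hi).1 _) hb)]
      simp [pow_succ, mul_comm]
  have h1 := key (q - 1) a ha
  rw [Nat.sub_add_cancel hq.one_le, hT, sum_pow_comm q _ _ fun i j => rho_comm _ _] at h1
  have h2 : (p : ZMod q) ^ (q - 1) ≠ 0 := pow_ne_zero _ (by rwa [Ne, ZMod.natCast_eq_zero_iff])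
  rw [← h1] at h2
  simp only [LinearMap.sum_apply, Finset.sum_apply, ← rho_pow, rho_apply] at h2
  obtain ⟨i, hi, hne⟩ := exists_ne_zero_of_sum_ne_zero h2
  refine ⟨i, mem_coe.2 hi, ?_⟩
  by_contra hc
  apply hne
  simp only [hφ, ← pow_mul]
  exact if_neg hc

theorem sep_of_coprime (hp : p.Prime) (h : Sep p c 1) : ∀ r, ¬ p ∣ r → Sep p c r := by
  intro r
  induction r using induction_on_primes with
  | zero => intro h0; exact absurd (dvd_zero p) h0
  | one => intro _; exact h
  | prime_mul q a hq ih =>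
    intro hd
    rw [mul_comm]
    refine (ih fun h' => hd (h'.mul_left q)).dilate hq fun h' => hd ?_
    rw [(Nat.prime_dvd_prime_iff_eq hq hp).1 h']
    exact dvd_mul_right _ _

theorem periodic (hp : p.Prime) (h : Sep p c 1) {i a : ℕ} (hi : i ∈ Icc 1 p) (ha : 0 < a) :
    c (i ^ p * a) = c a := by
  by_cases h1 : i = 1
  · simp [h1]
  have hi0 : 0 < i := (mem_Icc.1 hi).1
  have hne : ∀ k l, k < l → l - k < p → c (i ^ l * a) ≠ c (i ^ k * a) := by
    intro k l hkl hl he
    have hs := sep_of_coprime hp h (l - k) (Nat.not_dvd_of_pos_of_lt (by omega) hl)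
    refine h1 (hs (i ^ k * a) (Nat.mul_pos (pow_pos hi0 _) ha) (mem_coe.2 hi)
      (mem_coe.2 (mem_Icc.2 ⟨le_rfl, hp.one_le⟩)) ?_)
    simp only [one_pow, one_mul]
    rw [← mul_assoc, ← pow_add, Nat.sub_add_cancel hkl.le, he]
  have hinj : Set.InjOn (fun k : ℕ => c (i ^ k * a)) (range p : Finset ℕ) := by
    intro k hk l hl he
    have hk := mem_range.1 (mem_coe.1 hk)
    have hl := mem_range.1 (mem_coe.1 hl)
    rcases lt_trichotomy k l with h' | h' | h'
    · exact absurd he.symm (hne k l h' (by omega))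
    · exact h'
    · exact absurd he (hne l k h' (by omega))
  obtain ⟨k, hk, e⟩ := surjOn_of_injOn_of_card_le (t := (univ : Finset (Fin p)))
    (fun k : ℕ => c (i ^ k * a)) (fun _ _ => by simp) hinj (by simp)
    (mem_coe.2 (mem_univ (c (i ^ p * a))))
  have hk := mem_range.1 (mem_coe.1 hk)
  rcases Nat.eq_zero_or_pos k with h0 | h0
  · subst h0; simpa using e.symm
  · exact absurd e.symm (hne k p hk (by omega))

theorem commute_aeval {V : Type} [AddCommGroup V] [Module ℂ V] {S M : Module.End ℂ V}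
    (h : Commute S M) (P : ℂ[X]) : Commute S (aeval M P) := by
  rw [aeval_eq_sum_range]
  exact Commute.sum_right _ _ _ fun i _ => (h.pow_right i).smul_right _

theorem eig_step {V : Type} [AddCommGroup V] [Module ℂ V] (M : Module.End ℂ V) (z : ℕ → ℂ)
    (ψ : V) (hψ : ψ ≠ 0) (s : Finset ℕ) (h : aeval M (∏ k ∈ s, (X - C (z k))) ψ = 0) :
    ∃ k ∈ s, ∃ φ : V, φ ≠ 0 ∧ M φ = z k • φ ∧
      ∀ S : Module.End ℂ V, Commute S M → S ψ = 0 → S φ = 0 := by
  classical
  induction s using Finset.induction_on with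
  | empty => simp at h; exact absurd h hψ
  | insert a s ha ih =>
    by_cases h0 : aeval M (∏ k ∈ s, (X - C (z k))) ψ = 0
    · obtain ⟨k, hk, r⟩ := ih h0
      exact ⟨k, mem_insert_of_mem hk, r⟩
    · refine ⟨a, mem_insert_self _ _, _, h0, ?_, ?_⟩
      · rw [prod_insert ha, map_mul, Module.End.mul_apply] at h
        simpa [sub_eq_zero] using h
      · intro S hS hSψ
        rw [← Module.End.mul_apply, (commute_aeval hS _).eq, Module.End.mul_apply, hSψ, map_zero]

theorem exists_log (hp : p.Prime) (h : Sep p c 1) :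
    ∃ f : ℕ → ZMod p, (∀ x y, 1 ≤ x → 1 ≤ y → x * y ≤ p → f (x * y) = f x + f y) ∧
      Set.InjOn f (Icc 1 p : Finset ℕ) := by
  classical
  have : NeZero p := ⟨hp.ne_zero⟩
  obtain ⟨ζ, hζ⟩ : ∃ ζ : ℂ, IsPrimitiveRoot ζ p := ⟨_, Complex.isPrimitiveRoot_exp p hp.ne_zero⟩
  set T : Module.End ℂ (ℕ → ℂ) := ∑ i ∈ Icc 1 p, rho ℂ i with hT
  have hp0 : (p : ℂ) ≠ 0 := Nat.cast_ne_zero.2 hp.ne_zero
  have main : ∀ s : Finset ℕ, s ⊆ Icc 1 p → ∃ ψ : ℕ → ℂ, ψ ≠ 0 ∧ T ψ = 0 ∧
      (∀ i ∈ Icc 1 p, (rho ℂ i ^ p - 1) ψ = 0) ∧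
      ∀ i ∈ s, ∃ k < p, (rho ℂ i - ζ ^ k • (1 : Module.End ℂ (ℕ → ℂ))) ψ = 0 := by
    intro s
    induction s using Finset.induction_on with
    | empty =>
      intro _
      refine ⟨fun a => if a = 0 then 0 else (if c a = c 1 then 1 else 0) - 1 / p, ?_, ?_, ?_,
        by simp⟩
      · intro h0
        have := congrFun h0 1
        simp only [one_ne_zero, if_false, if_true, Pi.zero_apply, sub_eq_zero] at this
        have h2 : (p : ℂ) = 1 := by field_simp at this; exact this
        exact hp.one_lt.ne' (by exact_mod_cast h2)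
      · funext a
        simp only [hT, LinearMap.sum_apply, Finset.sum_apply, rho_apply, Pi.zero_apply]
        rcases Nat.eq_zero_or_pos a with h0 | h0
        · simp [h0]
        · rw [sum_congr rfl fun i hi => if_neg (Nat.mul_pos (mem_Icc.1 hi).1 h0).ne',
            sum_sub_distrib]
          have := h.sum_one (K := ℂ) (c 1) h0
          simp only [pow_one] at this
          rw [this]
          simp [hp0]
      · intro i hi
        funext a
        simp only [← rho_pow, LinearMap.sub_apply, Pi.sub_apply, rho_apply, Module.End.one_apply,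
          Pi.zero_apply]
        rcases Nat.eq_zero_or_pos a with h0 | h0
        · simp [h0]
        · rw [periodic hp h hi h0, if_neg (Nat.mul_pos (pow_pos (mem_Icc.1 hi).1 _) h0).ne',
            if_neg h0.ne', sub_self]
    | insert i s hi ih =>
      intro hs
      obtain ⟨ψ, h0, h1, h2, h3⟩ := ih ((subset_insert _ _).trans hs)
      have hi' := hs (mem_insert_self _ _)
      have hprod : aeval (rho ℂ i) (∏ k ∈ range p, (X - C (ζ ^ k))) ψ = 0 := by
        have := X_pow_sub_C_eq_prod hζ hp.pos (one_pow p)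
        simp only [mul_one] at this
        rw [← this]
        simpa using h2 i hi'
      obtain ⟨k, hk, φ, g0, g1, g2⟩ := eig_step _ _ ψ h0 _ hprod
      refine ⟨φ, g0, g2 _ (Commute.sum_left _ _ _ fun j _ => rho_comm _ _) h1, fun j hj =>
        g2 _ (((rho_comm j i).pow_left p).sub_left (Commute.one_left _)) (h2 j hj), ?_⟩
      intro j hj
      rcases mem_insert.1 hj with rfl | hj
      · exact ⟨k, mem_range.1 hk, by simp [g1]⟩
      · obtain ⟨l, hl, e⟩ := h3 j hj
        exact ⟨l, hl, g2 _ ((rho_comm j i).sub_left ((Commute.one_left _).smul_left _)) e⟩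
  obtain ⟨ψ, h0, h1, -, h3⟩ := main _ Subset.rfl
  choose! k hk e using h3
  have e' : ∀ i ∈ Icc 1 p, rho ℂ i ψ = ζ ^ k i • ψ := fun i hi => by
    simpa [sub_eq_zero] using e i hi
  refine ⟨fun i => (k i : ZMod p), ?_, ?_⟩
  · intro x y hx hy hxy
    have hx' : x ∈ Icc 1 p := mem_Icc.2 ⟨hx, by nlinarith⟩
    have hy' : y ∈ Icc 1 p := mem_Icc.2 ⟨hy, by nlinarith⟩
    have h4 := e' (x * y) (mem_Icc.2 ⟨Nat.mul_pos hx hy, hxy⟩)
    rw [rho_mul, Module.End.mul_apply, e' y hy', map_smul, e' x hx', smul_smul, ← pow_add] at h4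
    have h5 : ζ ^ (k y + k x) = ζ ^ k (x * y) := smul_left_injective ℂ h0 h4
    rw [(hζ.isOfFinOrder hp.ne_zero).pow_eq_pow_iff_modEq, ← hζ.eq_orderOf] at h5
    show ((k (x * y) : ℕ) : ZMod p) = (k x : ZMod p) + (k y : ZMod p)
    rw [← Nat.cast_add, ZMod.natCast_eq_natCast_iff, add_comm]
    exact h5.symm
  · have hsum : ∑ i ∈ Icc 1 p, ζ ^ k i = 0 := by
      have : (∑ i ∈ Icc 1 p, ζ ^ k i) • ψ = 0 := by
        rw [sum_smul, ← sum_congr rfl e', ← h1, hT, LinearMap.sum_apply]
      exact (smul_eq_zero.1 this).resolve_right h0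
    let κ : ℕ → Fin p := fun i => Fin.ofNat p (k i)
    have hκ : ∀ i ∈ Icc 1 p, (κ i : ℕ) = k i := fun i hi => Nat.mod_eq_of_lt (hk i hi)
    let α : Fin p → ℤ := fun j => ((filter (fun i => κ i = j) (Icc 1 p)).card : ℤ)
    have hα : ∑ j, (α j : ℂ) * ζ ^ j.val = 0 := by
      rw [← hsum, ← sum_fiberwise (s := Icc 1 p) (g := κ) (f := fun i => ζ ^ k i)]
      refine sum_congr rfl fun j _ => ?_
      rw [sum_congr rfl (g := fun _ => ζ ^ j.val) fun i hi => by
        rw [← hκ i (mem_filter.1 hi).1, (mem_filter.1 hi).2]]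
      simp [α]
    have hall := (hζ.sum_eq_zero_iff_forall_eq_int hp α).1 hα
    have hsurj : Set.SurjOn κ (Icc 1 p : Finset ℕ) (univ : Finset (Fin p)) := by
      intro j _
      have h1p : 1 ∈ Icc 1 p := mem_Icc.2 ⟨le_rfl, hp.one_le⟩
      have hpos : 0 < (filter (fun i => κ i = κ 1) (Icc 1 p)).card :=
        card_pos.2 ⟨1, mem_filter.2 ⟨h1p, rfl⟩⟩
      have := hall j (κ 1)
      simp only [α, Nat.cast_inj] at this
      rw [← this] at hpos
      obtain ⟨i, hi⟩ := card_pos.1 hpos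
      exact ⟨i, mem_coe.2 (mem_filter.1 hi).1, (mem_filter.1 hi).2⟩
    have hinj := injOn_of_surjOn_of_card_le κ (fun _ _ => by simp) hsurj (by simp)
    intro x hx y hy hxy
    refine hinj hx hy (Fin.ext ?_)
    have : k x ≡ k y [MOD p] := (ZMod.natCast_eq_natCast_iff _ _ _).1 hxy
    exact this

end Pool.Agent.H893Z.Sat
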