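import Pool.Agent.H893Z.SatDefs

/-! Kernel runs of the search, values of the prime 3 congruent to 0 mod 8. -/

set_option autoImplicit false
set_option maxRecDepth 100000

namespace Pool.Agent.H893Z.Sat

theorem chk_0 : chk 0 = true := by decide +kernel
theorem chk_8 : chk 8 = true := by decide +kernel
theorem chk_16 : chk 16 = true := by decide +kernel
theorem chk_24 : chk 24 = true := by decide +kernel
theorem chk_32 : chk 32 = true := by decide +kernel
theorem chk_40 : chk 40 = true := by decide +kernel
theorem chk_48 : chk 48 = true := by decide +kernel
theorem chk_56 : chk 56 = true := by decide +kernel
theorem chk_64 : chk 64 = true := by decide +kernel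
theorem chk_72 : chk 72 = true := by decide +kernel
theorem chk_80 : chk 80 = true := by decide +kernel
theorem chk_88 : chk 88 = true := by decide +kernel
theorem chk_96 : chk 96 = true := by decide +kernel
theorem chk_104 : chk 104 = true := by decide +kernel
theorem chk_112 : chk 112 = true := by decide +kernel
theorem chk_120 : chk 120 = true := by decide +kernel
theorem chk_128 : chk 128 = true := by decide +kernel
theorem chk_136 : chk 136 = true := by decide +kernel
theorem chk_144 : chk 144 = true := by decide +kernel
theorem chk_152 : chk 152 = true := by decide +kernel
theorem chk_160 : chk 160 = true := by decide +kernel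
theorem chk_168 : chk 168 = true := by decide +kernel
theorem chk_176 : chk 176 = true := by decide +kernel
theorem chk_184 : chk 184 = true := by decide +kernel
theorem chk_192 : chk 192 = true := by decide +kernel
theorem chk_200 : chk 200 = true := by decide +kernel
theorem chk_208 : chk 208 = true := by decide +kernel

end Pool.Agent.H893Z.Sat
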