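import Mathlib
import Pool.Agent.H893Z.SatDefs

/-! Soundness of the bit-mask search: generic lemmas. -/

set_option autoImplicit false

namespace Pool.Agent.H893Z.Sat

/-- An additive logarithm of length 211 normalised by `g 2 = 1`. -/
structure Good (g : ℕ → ℕ) : Prop where
  lt : ∀ m, 1 ≤ m → m ≤ 211 → g m < 211
  inj : ∀ m n, 1 ≤ m → m ≤ 211 → 1 ≤ n → n ≤ 211 → g m = g n → m = n
  add : ∀ x y, 1 ≤ x → 1 ≤ y → x * y ≤ 211 → g (x * y) = (g x + g y) % 211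
  one : g 1 = 0
  two : g 2 = 1

def Inv (g : ℕ → ℕ) (P : List ℕ) (D : ℕ) : Prop :=
  ∀ x, D.testBit x = true → ∃ u ∈ P, g u = x % 211

def Sh (g : ℕ → ℕ) (P Q : List ℕ) (W : ℕ) : Prop :=
  ∀ x, W.testBit x = true → ∃ m ∈ Q, ∃ u ∈ P, g u = (x + g m) % 211

theorem force_eq (n : ℕ) (k : ℕ → Bool) : force n k = k n := by cases n <;> rfl

theorem loop_sound (f : ℕ → Bool) : ∀ (k A : ℕ), loop f k A = true →
    ∀ v, A.testBit v = true → f v = true := by
  intro k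
  induction k with
  | zero =>
    intro A h v hv
    have : A = 0 := Nat.eq_of_beq_eq_true h
    subst this; simp at hv
  | succ k ih =>
    intro A h v hv
    have h' : Bool.rec (motive := fun _ => Bool)
      (force (idx A) fun v =>
        Bool.rec (motive := fun _ => Bool) false (loop f k (Nat.xor A (Nat.shiftLeft 1 v))) (f v))
      true (Nat.beq A 0) = true := h
    cases hA : Nat.beq A 0 with
    | true =>
      have : A = 0 := Nat.eq_of_beq_eq_true hA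
      subst this; simp at hv
    | false =>
      rw [hA, force_eq] at h'
      cases hf : f (idx A) with
      | false => rw [hf] at h'; exact absurd h' (by simp)
      | true =>
        rw [hf] at h'
        by_cases hvi : v = idx A
        · rw [hvi]; exact hf
        · refine ih _ h' v ?_
          show (A ^^^ (1 <<< idx A)).testBit v = true
          rw [Nat.testBit_xor, hv, Nat.one_shiftLeft, Nat.testBit_two_pow]
          simp [Ne.symm hvi]

theorem MM_bit (x : ℕ) : MM.testBit x = decide (x < 211) := by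
  have : MM = 2 ^ 211 - 1 := by unfold MM; norm_num
  rw [this, Nat.testBit_two_pow_sub_one]

theorem KK_bit (x : ℕ) (h : KK.testBit x = true) : x = 0 ∨ x = 211 := by
  have : KK = 2 ^ 211 ||| 2 ^ 0 := by decide +kernel
  rw [this, Nat.testBit_or, Nat.testBit_two_pow, Nat.testBit_two_pow] at h
  simp at h
  omega

variable {g : ℕ → ℕ}

theorem inv_nil : Inv g [] 0 := by intro x hx; simp at hx

theorem inv_cons {P : List ℕ} {D s m : ℕ} (h : Inv g P D) (hs : g m = s) (hlt : s < 211) :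
    Inv g (m :: P) (Nat.lor (Nat.shiftLeft KK s) D) := by
  intro x hx
  have hx' : ((KK <<< s) ||| D).testBit x = true := hx
  rw [Nat.testBit_or, Bool.or_eq_true] at hx'
  rcases hx' with h1 | h1
  · rw [Nat.testBit_shiftLeft] at h1
    simp only [ge_iff_le, Bool.and_eq_true, decide_eq_true_eq] at h1
    have := KK_bit _ h1.2
    refine ⟨m, by simp, ?_⟩
    omega
  · obtain ⟨u, hu, e⟩ := h x h1
    exact ⟨u, by simp [hu], e⟩

theorem inv_dmask (hg : Good g) : ∀ (ms : List ℕ), (∀ m ∈ ms, 1 ≤ m ∧ m ≤ 211) →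
    Inv g ms (dmask (ms.map g)) := by
  intro ms
  induction ms with
  | nil => intro _; exact inv_nil
  | cons m ms ih =>
    intro h
    have h1 := h m (by simp)
    exact inv_cons (ih fun x hx => h x (by simp [hx])) rfl (hg.lt m h1.1 h1.2)

theorem inv_KK (hg : Good g) : Inv g [1] KK := by
  intro x hx
  have := KK_bit x hx
  refine ⟨1, by simp, ?_⟩
  rw [hg.one]; omega

theorem tr_bit (hg : Good g) {ms : List ℕ} {DS q w : ℕ} (hS : Inv g ms DS) (hw : g q = w)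
    (hq : 1 ≤ q) (hms : ∀ m ∈ ms, 1 ≤ m ∧ q * m ≤ 211) (y : ℕ) (hy : (tr DS w).testBit y = true) :
    y < 211 ∧ ∃ m ∈ ms, g (q * m) = y := by
  have hy' : ((DS >>> (211 - w)) &&& MM).testBit y = true := hy
  rw [Nat.testBit_and, Bool.and_eq_true, MM_bit, Nat.testBit_shiftRight] at hy'
  obtain ⟨h1, h2⟩ := hy'
  have h2 : y < 211 := by simpa using h2
  obtain ⟨m, hm, e⟩ := hS _ h1
  have hm' := hms m hm
  have hq' : q ≤ 211 := by nlinarith [hm'.1, hm'.2]
  have hw' : w < 211 := hw ▸ hg.lt q hq hq'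
  refine ⟨h2, m, hm, ?_⟩
  rw [hg.add q m hq hm'.1 hm'.2, hw, e]
  omega

theorem inv_add (hg : Good g) {P ms : List ℕ} {DU DS q w : ℕ} (hU : Inv g P DU) (hS : Inv g ms DS)
    (hw : g q = w) (hq : 1 ≤ q) (hms : ∀ m ∈ ms, 1 ≤ m ∧ q * m ≤ 211) :
    Inv g (ms.map (q * ·) ++ P) (Nat.lor DU (dbl (tr DS w))) := by
  intro x hx
  have hx' : (DU ||| (tr DS w ||| (tr DS w <<< 211))).testBit x = true := hx
  rw [Nat.testBit_or, Nat.testBit_or, Bool.or_eq_true, Bool.or_eq_true] at hx'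
  rcases hx' with h1 | h1 | h1
  · obtain ⟨u, hu, e⟩ := hU x h1
    exact ⟨u, by simp [hu], e⟩
  · obtain ⟨h2, m, hm, e⟩ := tr_bit hg hS hw hq hms x h1
    refine ⟨q * m, List.mem_append_left _ (List.mem_map.2 ⟨m, hm, rfl⟩), ?_⟩
    omega
  · rw [Nat.testBit_shiftLeft] at h1
    simp only [ge_iff_le, Bool.and_eq_true, decide_eq_true_eq] at h1
    obtain ⟨h2, m, hm, e⟩ := tr_bit hg hS hw hq hms _ h1.2
    refine ⟨q * m, List.mem_append_left _ (List.mem_map.2 ⟨m, hm, rfl⟩), ?_⟩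
    omega

theorem addLayer_sound (hg : Good g) {P ms : List ℕ} {DU DS q w : ℕ} {k : ℕ → Bool}
    (hU : Inv g P DU) (hS : Inv g ms DS) (hw : g q = w) (hq : 1 ≤ q)
    (hms : ∀ m ∈ ms, 1 ≤ m ∧ q * m ≤ 211 ∧ q * m ∉ P) (hP : ∀ u ∈ P, 1 ≤ u ∧ u ≤ 211)
    (h : addLayer DU DS w k = true) :
    ∃ U, Inv g (ms.map (q * ·) ++ P) U ∧ k U = true := by
  have hms' : ∀ m ∈ ms, 1 ≤ m ∧ q * m ≤ 211 := fun m hm => ⟨(hms m hm).1, (hms m hm).2.1⟩
  refine ⟨_, inv_add hg hU hS hw hq hms', ?_⟩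
  unfold addLayer at h
  rw [force_eq, force_eq] at h
  have h0 : Nat.land (tr DS w) DU = 0 := by
    apply Nat.eq_of_testBit_eq
    intro y
    show (tr DS w &&& DU).testBit y = _
    rw [Nat.testBit_and, Nat.zero_testBit]
    by_contra hc
    simp only [Bool.and_eq_false_imp, Classical.not_imp, Bool.not_eq_false] at hc
    obtain ⟨h2, m, hm, e⟩ := tr_bit hg hS hw hq hms' y hc.1
    obtain ⟨u, hu, e'⟩ := hU y hc.2
    have h3 := hms m hm
    have : q * m = u := hg.inj _ _ (Nat.mul_pos hq h3.1) h3.2.1 (hP u hu).1 (hP u hu).2 (by omega)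
    exact h3.2.2 (this ▸ hu)
  rw [h0] at h
  exact h

theorem sh_base (hg : Good g) {P : List ℕ} {D : ℕ} (h : Inv g P D) : Sh g P [1] D := by
  intro x hx
  obtain ⟨u, hu, e⟩ := h x hx
  exact ⟨1, by simp, u, hu, by rw [hg.one]; simpa using e⟩

theorem sh_or {P Q R : List ℕ} {W X : ℕ} (h1 : Sh g P Q W) (h2 : Sh g P R X) :
    Sh g P (Q ++ R) (Nat.lor W X) := by
  intro x hx
  have hx' : (W ||| X).testBit x = true := hx
  rw [Nat.testBit_or, Bool.or_eq_true] at hx'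
  rcases hx' with h | h
  · obtain ⟨m, hm, r⟩ := h1 x h
    exact ⟨m, by simp [hm], r⟩
  · obtain ⟨m, hm, r⟩ := h2 x h
    exact ⟨m, by simp [hm], r⟩

theorem sh_shift (hg : Good g) {P Q : List ℕ} {W r s : ℕ} (h1 : Sh g P Q W) (hs : g r = s)
    (hr : 1 ≤ r) (hQ : ∀ m ∈ Q, 1 ≤ m ∧ r * m ≤ 211) :
    Sh g P (Q.map (r * ·)) (Nat.shiftRight W s) := by
  intro x hx
  have hx' : (W >>> s).testBit x = true := hx
  rw [Nat.testBit_shiftRight] at hx'
  obtain ⟨m, hm, u, hu, e⟩ := h1 _ hx'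
  refine ⟨r * m, List.mem_map.2 ⟨m, hm, rfl⟩, u, hu, ?_⟩
  rw [hg.add r m hr (hQ m hm).1 (hQ m hm).2, hs, e]
  omega

theorem sh_forb {P : List ℕ} {DU : ℕ} (hU : Inv g P DU) :
    ∀ ms : List ℕ, Sh g P ms (forb DU (ms.map g)) := by
  intro ms
  induction ms with
  | nil => intro x hx; exact absurd hx (by show ¬ (Nat.testBit 0 x = true); simp)
  | cons m ms ih =>
    intro x hx
    have hx' : ((DU >>> g m) ||| forb DU (ms.map g)).testBit x = true := hx
    rw [Nat.testBit_or, Bool.or_eq_true] at hx'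
    rcases hx' with h | h
    · rw [Nat.testBit_shiftRight] at h
      obtain ⟨u, hu, e⟩ := hU _ h
      exact ⟨m, by simp, u, hu, by rw [e, Nat.add_comm]⟩
    · obtain ⟨m', hm', r⟩ := ih x h
      exact ⟨m', by simp [hm'], r⟩

theorem sh_excl (hg : Good g) {P Q : List ℕ} {F p : ℕ} (h : Sh g P Q F) (hp : 1 ≤ p)
    (hQ : ∀ m ∈ Q, 1 ≤ m ∧ p * m ≤ 211 ∧ p * m ∉ P) (hP : ∀ u ∈ P, 1 ≤ u ∧ u ≤ 211) :
    F.testBit (g p) = false := by
  by_contra hc
  obtain ⟨m, hm, u, hu, e⟩ := h _ (by simpa using hc)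
  have h3 := hQ m hm
  rw [← hg.add p m hp h3.1 h3.2.1] at e
  have : u = p * m := hg.inj _ _ (hP u hu).1 (hP u hu).2 (Nat.mul_pos hp h3.1) h3.2.1 e
  exact h3.2.2 (this ▸ hu)

theorem cand_bit {F v : ℕ} (hF : F.testBit v = false) (hv : v < 211) :
    (Nat.xor MM (Nat.land MM F)).testBit v = true := by
  show (MM ^^^ (MM &&& F)).testBit v = true
  rw [Nat.testBit_xor, Nat.testBit_and, MM_bit, hF]
  simp [hv]

theorem stepF_sound (hg : Good g) {P Q ms : List ℕ} {F DU DS p : ℕ} {k : ℕ → ℕ → Bool}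
    (hU : Inv g P DU) (hS : Inv g ms DS) (hF : Sh g P Q F) (hp : 1 ≤ p) (hp' : p ≤ 211)
    (hQ : ∀ m ∈ Q, 1 ≤ m ∧ p * m ≤ 211 ∧ p * m ∉ P) (hP : ∀ u ∈ P, 1 ≤ u ∧ u ≤ 211)
    (hms : ∀ m ∈ ms, 1 ≤ m ∧ p * m ≤ 211)
    (h : stepF F DU DS k = true) :
    ∃ U, Inv g (ms.map (p * ·) ++ P) U ∧ k (g p) U = true := by
  refine ⟨_, inv_add hg hU hS rfl hp hms, ?_⟩
  unfold stepF at h
  rw [force_eq] at h
  have := loop_sound _ _ _ h (g p) (cand_bit (sh_excl hg hF hp hQ hP) (hg.lt p hp hp'))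
  rw [force_eq, force_eq] at this
  exact this

theorem stepL_sound (hg : Good g) {P ms ss : List ℕ} {DU p : ℕ} {k : ℕ → Bool}
    (hU : Inv g P DU) (hss : ms.map g = ss) (hp : 1 ≤ p) (hp' : p ≤ 211)
    (hQ : ∀ m ∈ ms, 1 ≤ m ∧ p * m ≤ 211 ∧ p * m ∉ P) (hP : ∀ u ∈ P, 1 ≤ u ∧ u ≤ 211)
    (h : stepL DU ss k = true) :
    ∃ U, Inv g (ms.map (p * ·) ++ P) U ∧ k U = true := by
  subst hss
  have h1 : ∀ m ∈ ms, 1 ≤ m ∧ m ≤ 211 := fun m hm =>
    ⟨(hQ m hm).1, by nlinarith [(hQ m hm).1, (hQ m hm).2.1]⟩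
  exact stepF_sound hg hU (inv_dmask hg ms h1) (sh_forb hU ms) hp hp' hQ hP
    (fun m hm => ⟨(hQ m hm).1, (hQ m hm).2.1⟩) h

end Pool.Agent.H893Z.Sat
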